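import Pool.Agent.Q271.LM.Main
import Pool.Agent.Q271.LM.Neg
import Pool.Agent.Q271.LM.Fin

/-!
# Analytic matrix functions separating Liouville matrices

`Q271.IsLiouville M`: `M` is a Liouville matrix. `Q271.LM.coeff h j` is the `j`-th Taylor coefficient of `h` at `0`,
`Q271.LM.Ext h A B` says that the Taylor series of `h` at `0`, evaluated at the matrix `A`, converges to `B`, and
`Q271.LM.Coincide I h g a b c d` that `h` and `τ_{a,b,c,d} ∘ g` coincide on `I`.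
-/

set_option autoImplicit false

namespace Pool.Agent.Results.MP_4d0c5f_nt.SeparatingMatrices

open Q271 Q271.LM Set Matrix

/-- the hypotheses of the problem: `I` is an open interval containing `0`, the `f k` and `g k` are real analytic on `I`,
and (i), (ii) -/
structure Hyp (I : Set ℝ) (f g : ℕ → ℝ → ℝ) : Prop where
  isOpen : IsOpen I
  interval : I.OrdConnected
  zero_mem : (0 : ℝ) ∈ I
  analytic_f : ∀ k, AnalyticOnNhd ℝ (f k) I
  analytic_g : ∀ k, AnalyticOnNhd ℝ (g k) I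
  cond_i : ∀ k : ℕ, ∀ a b c d : ℝ, (c, d) ≠ (0, 0) → ¬ Coincide I (g k) id a b c d
  cond_ii : ∀ k l : ℕ, ∀ a b c d : ℝ, (c, d) ≠ (0, 0) → ¬ Coincide I (f k) (g l) a b c d

/-- the radii of convergence at `0` have a common positive lower bound -/
def CommonRadius (f : ℕ → ℝ → ℝ) : Prop :=
  ∃ r > 0, ∀ k, Summable fun j : ℕ => |coeff (f k) j| * r ^ j

theorem result :
    -- (1) the answer for sequences with a common radius of convergence
    (∀ (n : ℕ) (I : Set ℝ) (f g : ℕ → ℝ → ℝ), 2 ≤ n → Hyp I f g → CommonRadius f → CommonRadius g →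
      ∃ A : Matrix (Fin n) (Fin n) ℝ, IsLiouville A ∧
        ∀ k, (∃ B, Ext (f k) A B ∧ IsLiouville B) ∧ ∃ B, Ext (g k) A B ∧ ¬ IsLiouville B) ∧
    -- (2) finitely many functions have a common radius of convergence
    (∀ f : ℕ → ℝ → ℝ, (range f).Finite → (∀ k, AnalyticAt ℝ (f k) 0) → CommonRadius f) ∧
    -- (3) the answer for all sequences, by functional calculus
    (∀ (n : ℕ) (I : Set ℝ) (f g : ℕ → ℝ → ℝ), 2 ≤ n → Hyp I f g → ∀ ε : ℝ, 0 < ε →
      ∃ x ∈ I, 0 < x ∧ x < ε ∧ ∃ A : Matrix (Fin n) (Fin n) ℝ, A * A = x • A ∧ IsLiouville A ∧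
        (∀ k, IsLiouville (fc (f k) x A) ∧ ¬ IsLiouville (fc (g k) x A)) ∧
        ∀ h : ℝ → ℝ, AnalyticOnNhd ℝ h I → ∀ r : ℝ, x < r → Summable (fun j : ℕ => |coeff h j| * r ^ j) →
          Ext h A (fc h x A)) ∧
    -- (4) the literal statement fails for shrinking radii
    ∀ n : ℕ, 2 ≤ n → ∃ f g : ℕ → ℝ → ℝ, Hyp univ f g ∧
      ∀ A : Matrix (Fin n) (Fin n) ℝ, (∀ k, ∃ B, Ext (f k) A B) → ∀ k B, Ext (f k) A B → B = 0 ∧ ¬ IsLiouville B := by
  refine ⟨?_, fun f hf ha => finite_radius hf ha, ?_, ?_⟩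
  · intro n I f g hn hyp hf hg
    obtain ⟨m, rfl⟩ : ∃ m, n = m + 2 := ⟨n - 2, by omega⟩
    obtain ⟨r1, hr1, h1⟩ := hf
    obtain ⟨r2, hr2, h2⟩ := hg
    obtain ⟨x, -, hx0, hxr, A, -, hA, hk, hext⟩ := pos m hyp.isOpen hyp.interval hyp.zero_mem hyp.analytic_f
      hyp.analytic_g hyp.cond_i hyp.cond_ii (ε := min r1 r2) (lt_min hr1 hr2)
    refine ⟨A, hA, fun k => ⟨⟨_, hext (f k) (hyp.analytic_f k) r1 (hxr.trans_le (min_le_left _ _)) (h1 k), (hk k).1⟩,
      ⟨_, hext (g k) (hyp.analytic_g k) r2 (hxr.trans_le (min_le_right _ _)) (h2 k), (hk k).2⟩⟩⟩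
  · intro n I f g hn hyp ε hε
    obtain ⟨m, rfl⟩ : ∃ m, n = m + 2 := ⟨n - 2, by omega⟩
    exact pos m hyp.isOpen hyp.interval hyp.zero_mem hyp.analytic_f hyp.analytic_g hyp.cond_i hyp.cond_ii hε
  · intro n hn
    obtain ⟨f, g, han, hi, hii, h⟩ := neg n
    refine ⟨f, g, ⟨isOpen_univ, ordConnected_univ, mem_univ _, fun k => (han k).1, fun k => (han k).2, hi, hii⟩,
      fun A hA k B hB => ?_⟩
    have h0 : B = 0 := tendsto_nhds_unique hB (h A hA k)
    refine ⟨h0, ?_⟩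
    rw [h0]
    rintro ⟨h1, -⟩
    obtain ⟨i⟩ : Nonempty (Fin n) := ⟨⟨0, by omega⟩⟩
    refine h1 (fun _ => 1) 0 (Or.inl fun hc => ?_) ?_
    · have := congrFun hc i
      simp at this
    · rw [zero_mulVec]
      funext j
      simp [toR]

end Pool.Agent.Results.MP_4d0c5f_nt.SeparatingMatrices
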